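import Pool.Agent.Q74.PD.Stm11

/-! # Project PD of helper74: the characteristic function of the Syracuse random variable is in `l^q`, `q > 2` -/

set_option autoImplicit false

namespace Pool.Agent.Q192.PD

open Finset Filter Topology MeasureTheory
open Pool.Agent.Q74.PD

theorem chq (hp : S_Psv) (hb : S_Chb) (hm : S_Mou) : S_Chq := by
  intro q hq B
  obtain ⟨B', hB'⟩ := exists_nat_ge (((B : ℝ) + 7) / (q - 2))
  obtain ⟨C₁, hC₁, h1⟩ := hb B'
  have hq2 : 0 < q - 2 := by linarith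
  have hB2 : (B : ℝ) + 7 ≤ B' * (q - 2) := by
    rwa [div_le_iff₀ hq2] at hB'
  have hC2 : 0 < C₁ ^ (q - 2) := Real.rpow_pos_of_pos hC₁ _
  refine ⟨72 * C₁ ^ (q - 2), by positivity, fun d hd n hn => ?_⟩
  have hn1 : (1 : ℝ) ≤ n := by exact_mod_cast hn
  have hn0 : (0 : ℝ) < n := by linarith
  -- the square sum
  have h2 : ∑ ξ ∈ range (3 ^ n), ‖chi d n ξ‖ ^ 2 ≤ 72 * (n : ℝ) ^ 7 := by
    rw [hp d n]
    have h3 := hm d hd 2 (by norm_num) n hn
    have h4 : max 1 ((3 : ℝ) ^ ((2 : ℝ) - 1) / ((2 : ℝ) ^ (2 : ℝ) - 1)) = 1 := by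
      rw [Real.rpow_two]
      norm_num
    rw [h4, one_pow, mul_one, Real.rpow_two] at h3
    simp only [Real.rpow_two] at h3
    refine h3.trans ?_
    have h5 : (n : ℝ) + 1 ≤ 2 * n := by linarith
    calc (6 * (n : ℝ) ^ 3) ^ 2 * (n + 1) ≤ (6 * (n : ℝ) ^ 3) ^ 2 * (2 * n) :=
          mul_le_mul_of_nonneg_left h5 (by positivity)
      _ = 72 * (n : ℝ) ^ 7 := by ring
  -- the maximum
  have h6 : (C₁ / (n : ℝ) ^ B') ^ (q - 2) ≤ C₁ ^ (q - 2) / (n : ℝ) ^ (B + 7) := by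
    rw [Real.div_rpow hC₁.le (by positivity)]
    apply div_le_div_of_nonneg_left hC2.le (by positivity)
    rw [← Real.rpow_natCast (n : ℝ) B', ← Real.rpow_mul hn0.le, ← Real.rpow_natCast (n : ℝ) (B + 7)]
    apply Real.rpow_le_rpow_of_exponent_le hn1
    push_cast
    exact hB2
  calc ∑ ξ ∈ (range (3 ^ n)).filter (fun ξ : ℕ => ¬ 3 ∣ ξ), ‖chi d n ξ‖ ^ q
      ≤ ∑ ξ ∈ (range (3 ^ n)).filter (fun ξ : ℕ => ¬ 3 ∣ ξ),
          C₁ ^ (q - 2) / (n : ℝ) ^ (B + 7) * ‖chi d n ξ‖ ^ 2 := by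
        refine sum_le_sum fun ξ hξ => ?_
        have h7 : ¬ (3 : ℤ) ∣ (ξ : ℤ) := by
          have := (mem_filter.1 hξ).2
          exact_mod_cast this
        have h8 := h1 d hd n hn ξ h7
        rcases (norm_nonneg (chi d n ξ)).eq_or_lt with h0 | h0
        · rw [← h0, Real.zero_rpow (by linarith)]
          positivity
        · have h9 : ‖chi d n ξ‖ ^ q = ‖chi d n ξ‖ ^ (q - 2) * ‖chi d n ξ‖ ^ 2 := by
            rw [← Real.rpow_two, ← Real.rpow_add h0]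
            congr 1
            ring
          rw [h9]
          apply mul_le_mul_of_nonneg_right _ (by positivity)
          exact (Real.rpow_le_rpow h0.le h8 hq2.le).trans h6
    _ ≤ ∑ ξ ∈ range (3 ^ n), C₁ ^ (q - 2) / (n : ℝ) ^ (B + 7) * ‖chi d n ξ‖ ^ 2 :=
        sum_le_sum_of_subset_of_nonneg (filter_subset _ _) fun _ _ _ => by positivity
    _ = C₁ ^ (q - 2) / (n : ℝ) ^ (B + 7) * ∑ ξ ∈ range (3 ^ n), ‖chi d n ξ‖ ^ 2 := by
        rw [mul_sum]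
    _ ≤ C₁ ^ (q - 2) / (n : ℝ) ^ (B + 7) * (72 * (n : ℝ) ^ 7) :=
        mul_le_mul_of_nonneg_left h2 (by positivity)
    _ = 72 * C₁ ^ (q - 2) / (n : ℝ) ^ B := by
        rw [pow_add]
        field_simp

end Pool.Agent.Q192.PD
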