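import Pool.Agent.H779R2.An.Periodic
import Pool.Agent.W740.TC.Main
import Pool.Agent.Q192.PK.ManE

set_option autoImplicit false
set_option linter.unusedSectionVars false

open scoped Manifold ContDiff Topology Bundle
open Set Filter Bundle

namespace Pool.Agent.Q192.PD

open Pool.Agent.H721R2 Pool.Agent.H779R2.An Pool.Agent.H789R2.AN

section abs
open scoped BigOperators

variable {X E : Type*} [MetricSpace X] [CompactSpace X] [NormedAddCommGroup E]
  [InnerProductSpace ℝ E] [FiniteDimensional ℝ E]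

/-- Periodic points of a hyperbolic system are dense if every open set returns. -/
theorem periodic_dense_of_return (S : HypSys X E)
    (htr : ∀ U : Set X, IsOpen U → U.Nonempty → ∃ N : ℕ, 1 ≤ N ∧ ∃ z ∈ U, S.g^[N] z ∈ U)
    (x : X) (ε : ℝ) (hε : 0 < ε) :
    ∃ (y : X) (N : ℕ), 1 ≤ N ∧ S.g^[N] y = y ∧ dist y x < ε := by
  obtain ⟨ε₀, G⟩ := exists_geo S
  obtain ⟨ε₁, hε₁, hsh⟩ := S.shadowing
  have hK := S.one_le_K
  have hK0 : 0 < S.K := by linarith
  have hG := G.pos
  obtain ⟨δ, hδ, hδ1, hδ2, hδ3⟩ : ∃ δ > 0, δ ≤ ε₁ ∧ 8 * S.K * δ ≤ ε / 4 ∧ 16 * S.K * δ ≤ ε₀ := by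
    refine ⟨min ε₁ (min (ε / (32 * S.K)) (ε₀ / (16 * S.K))), by positivity, min_le_left _ _, ?_, ?_⟩
    · have h1 : min ε₁ (min (ε / (32 * S.K)) (ε₀ / (16 * S.K))) ≤ ε / (32 * S.K) :=
        (min_le_right _ _).trans (min_le_left _ _)
      calc _ ≤ 8 * S.K * (ε / (32 * S.K)) := mul_le_mul_of_nonneg_left h1 (by positivity)
        _ = ε / 4 := by field_simp; ring
    · have h1 : min ε₁ (min (ε / (32 * S.K)) (ε₀ / (16 * S.K))) ≤ ε₀ / (16 * S.K) :=
        (min_le_right _ _).trans (min_le_right _ _)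
      calc _ ≤ 16 * S.K * (ε₀ / (16 * S.K)) := mul_le_mul_of_nonneg_left h1 (by positivity)
        _ = ε₀ := by field_simp
  set r := min (ε / 2) (δ / 2) with hr
  have hr0 : 0 < r := by positivity
  have hr1 : r ≤ ε / 2 := min_le_left _ _
  have hr2 : r ≤ δ / 2 := min_le_right _ _
  obtain ⟨N, hN1, z, hz, hNz⟩ := htr (Metric.ball x r) Metric.isOpen_ball
    ⟨x, Metric.mem_ball_self hr0⟩
  rw [Metric.mem_ball] at hz hNz
  have hclose : dist (S.g^[N] z) z ≤ δ := by
    have := dist_triangle_right (S.g^[N] z) z x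
    linarith
  have hNpos : (0 : ℤ) < N := by exact_mod_cast hN1
  -- the periodic pseudo-orbit
  let p : ℤ → X := fun k => S.g^[(k % N).toNat] z
  have hp : ∀ k, dist (S.g (p k)) (p (k + 1)) ≤ δ := by
    intro k
    have h1 := Int.emod_nonneg k hNpos.ne'
    have h2 := Int.emod_lt_of_pos k hNpos
    change dist (S.g (S.g^[(k % N).toNat] z)) (S.g^[((k + 1) % N).toNat] z) ≤ δ
    rw [← Function.iterate_succ_apply' S.g, Nat.succ_eq_add_one]
    by_cases h : k % N + 1 = N
    · have h3 : (k + 1) % N = 0 := by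
        rw [Int.add_emod]
        rcases eq_or_lt_of_le hN1 with h4 | h4
        · rw [← h4]; simp
        · have h5 : (1 : ℤ) % N = 1 := Int.emod_eq_of_lt (by norm_num) (by exact_mod_cast h4)
          rw [h5, h, Int.emod_self]
      have h4 : (k % N).toNat + 1 = N := by omega
      rw [h3, h4]
      exact hclose
    · have h3 : (k + 1) % N = k % N + 1 := by
        have h6 : 1 < N := by omega
        rw [Int.add_emod]
        have h5 : (1 : ℤ) % N = 1 := Int.emod_eq_of_lt (by norm_num) (by exact_mod_cast h6)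
        rw [h5]
        exact Int.emod_eq_of_lt (by omega) (by omega)
      have h4 : ((k + 1) % N).toNat = (k % N).toNat + 1 := by omega
      rw [h4, dist_self]
      exact hδ.le
  obtain ⟨y, hy1, hy2⟩ := hsh δ hδ1 p hp
  have hper : ∀ k : ℤ, dist (y k) (y (k + N)) ≤ ε₀ := by
    intro k
    have h1 := hy2 k
    have h2 := hy2 (k + N)
    have h3 : p (k + N) = p k := by
      change S.g^[((k + N) % N).toNat] z = S.g^[(k % N).toNat] z
      rw [Int.add_emod_right]
    rw [h3] at h2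
    have h4 := dist_triangle_right (y k) (y (k + N)) (p k)
    calc _ ≤ 8 * S.K * δ + 8 * S.K * δ := by linarith
      _ = 16 * S.K * δ := by ring
      _ ≤ _ := hδ3
  have hyN : ∀ k : ℤ, (fun n => y (n + N)) (k + 1) = S.g ((fun n => y (n + N)) k) := by
    intro k
    change y (k + 1 + N) = S.g (y (k + N))
    rw [← hy1 (k + N)]
    congr 1
    ring
  have heq : y 0 = y N := by
    refine G.uniq _ _ (fun k => ?_) (fun k => ?_)
    · have h1 := HypSys.orbit_nat S y hy1 k
      have h2 := HypSys.orbit_nat S (fun n => y (n + N)) hyN k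
      simp only [zero_add] at h2
      rw [← h1, ← h2]
      exact hper k
    · have h1 := HypSys.orbit_neg S y hy1 k
      have h2 := HypSys.orbit_neg S (fun n => y (n + N)) hyN k
      simp only [zero_add] at h2
      rw [← h1, ← h2]
      exact hper (-k)
  refine ⟨y 0, N, hN1, ?_, ?_⟩
  · rw [← HypSys.orbit_nat S y hy1 N]
    exact heq.symm
  · have h1 := hy2 0
    have h2 : p 0 = z := by
      change S.g^[((0 : ℤ) % N).toNat] z = z
      simp
    rw [h2] at h1
    have h3 := dist_triangle (y 0) z x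
    linarith

end abs

/-- Open sets with return times: nested sequence. -/
theorem return_mul {M : Type*} [TopologicalSpace M] {f : M → M} (hf : Continuous f)
    (hret : ∀ U : Set M, IsOpen U → U.Nonempty → ∃ m : ℕ, 1 ≤ m ∧ ∃ z ∈ U, f^[m] z ∈ U)
    (n : ℕ) (hn : 1 ≤ n) (U : Set M) (hU : IsOpen U) (hUn : U.Nonempty) :
    ∃ N : ℕ, 1 ≤ N ∧ ∃ z ∈ U, f^[n * N] z ∈ U := by
  -- `V j` nonempty open, with `f^[m j] (V (j+1)) ⊆ V j`, `V (j+1) ⊆ V j`
  have step : ∀ V : {V : Set M // IsOpen V ∧ V.Nonempty}, ∃ W : {V : Set M // IsOpen V ∧ V.Nonempty},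
      ∃ m : ℕ, 1 ≤ m ∧ W.1 ⊆ V.1 ∧ ∀ z ∈ W.1, f^[m] z ∈ V.1 := by
    rintro ⟨V, hV, hVn⟩
    obtain ⟨m, hm, z, hz, hz'⟩ := hret V hV hVn
    exact ⟨⟨V ∩ f^[m] ⁻¹' V, hV.inter (hV.preimage (hf.iterate m)), ⟨z, hz, hz'⟩⟩, m, hm,
      inter_subset_left, fun z hz => hz.2⟩
  choose W m hm hsub hmap using step
  let V : ℕ → {V : Set M // IsOpen V ∧ V.Nonempty} := fun j => Nat.rec ⟨U, hU, hUn⟩ (fun _ v => W v) j
  have hVs : ∀ j, V (j + 1) = W (V j) := fun j => rfl
  have hV0 : (V 0).1 = U := rfl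
  -- cumulative return
  have hcum : ∀ j i, ∀ z ∈ (V (i + j)).1, f^[∑ t ∈ Finset.range j, m (V (i + t))] z ∈ (V i).1 := by
    intro j
    induction j with
    | zero => intro i z hz; simpa using hz
    | succ j ih =>
      intro i z hz
      have h1 : f^[m (V (i + j))] z ∈ (V (i + j)).1 := by
        have : V (i + (j + 1)) = W (V (i + j)) := hVs (i + j)
        rw [this] at hz
        exact hmap _ z hz
      have h2 := ih i _ h1
      rw [← Function.iterate_add_apply] at h2
      rwa [Finset.sum_range_succ]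
  have hVU : ∀ i, (V i).1 ⊆ U := by
    intro i
    induction i with
    | zero => exact hV0.subset
    | succ i ih => exact (hsub (V i)).trans ih
  -- pigeonhole on partial sums
  let s : ℕ → ℕ := fun j => ∑ t ∈ Finset.range j, m (V t)
  have hs_lt : StrictMono s := strictMono_nat_of_lt_succ fun j => by
    simp only [s]
    rw [Finset.sum_range_succ]
    have := hm (V j)
    omega
  obtain ⟨a, b, hab, hmod⟩ : ∃ a b, a < b ∧ s a % n = s b % n := by
    obtain ⟨a, -, b, -, hab, h⟩ := Finset.exists_ne_map_eq_of_card_lt_of_maps_to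
      (s := Finset.range (n + 1)) (t := Finset.range n) (by simp) (f := fun j => s j % n)
      (fun j _ => by simpa using Nat.mod_lt _ (by omega))
    rcases lt_or_gt_of_ne hab with h' | h'
    · exact ⟨a, b, h', h⟩
    · exact ⟨b, a, h', h.symm⟩
  have hlt := hs_lt hab
  obtain ⟨N, hN⟩ : n ∣ s b - s a := (Nat.modEq_iff_dvd' hlt.le).mp hmod
  have hN1 : 1 ≤ N := by
    rcases Nat.eq_zero_or_pos N with h | h
    · rw [h] at hN; omega
    · exact h
  obtain ⟨z, hz⟩ := (V b).2.2
  have h1 := hcum (b - a) a z (by rwa [Nat.add_sub_cancel' hab.le])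
  have h2 : ∑ t ∈ Finset.range (b - a), m (V (a + t)) = s b - s a := by
    have h3 : s b = s a + ∑ t ∈ Finset.range (b - a), m (V (a + t)) := by
      simp only [s]
      conv_lhs => rw [← Nat.add_sub_cancel' hab.le]
      rw [Finset.sum_range_add]
    omega
  rw [h2, hN] at h1
  exact ⟨N, hN1, z, hVU b hz, hVU a h1⟩

/-- Periodic points of a transitive Anosov diffeomorphism are dense. -/
theorem periodic_of_trans {E : Type*} [NormedAddCommGroup E] [NormedSpace ℝ E]
    [FiniteDimensional ℝ E]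
    {M : Type*} [TopologicalSpace M] [T2Space M] [CompactSpace M]
    [ChartedSpace E M] [IsManifold 𝓘(ℝ, E) ∞ M] (f : Diffeomorph 𝓘(ℝ, E) 𝓘(ℝ, E) M M 1)
    (Es Eu : ∀ x : M, Submodule ℝ (TangentSpace 𝓘(ℝ, E) x)) (hA : IsAnosov f Es Eu)
    (ht : TopTransitive f) : Dense (Function.periodicPts f) := by
  obtain ⟨m, e, he, hemb, hinj⟩ := exists_embedding_euclidean_of_compact (I := 𝓘(ℝ, E)) (M := M)
  let _ : MetricSpace M := hemb.isEmbedding.comapMetricSpace e
  have hiso : ∀ x y : M, dist x y = ‖e x - e y‖ := fun x y => dist_eq_norm (e x) (e y)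
  have he1 : ContMDiff 𝓘(ℝ, E) (𝓡 m) 1 e := he.of_le (by simp)
  obtain ⟨n, S, hn, hg, -, -, -⟩ := Pool.Agent.W740.TC.exists_sys_ge hiso he1 hinj f Es Eu hA 1
  have hret : ∀ U : Set M, IsOpen U → U.Nonempty → ∃ m : ℕ, 1 ≤ m ∧ ∃ z ∈ U, f^[m] z ∈ U := by
    intro U hU hUn
    obtain ⟨k, y, ⟨z, hz, hzy⟩, hy⟩ := ht U (f ⁻¹' U) hU hUn (hU.preimage f.continuous)
      (by
        obtain ⟨u, hu⟩ := hUn
        exact ⟨f.symm u, by simpa using hu⟩)
    refine ⟨k + 1, by omega, z, hz, ?_⟩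
    rw [Function.iterate_succ_apply', hzy]
    exact hy
  have hgn : ∀ (k : ℕ) (x : M), (S.g^[k]) x = f^[n * k] x := by
    intro k x
    rw [hg, Function.iterate_mul]
    rfl
  intro x
  rw [Metric.mem_closure_iff]
  intro ε hε
  obtain ⟨y, N, hN1, hy, hd⟩ := periodic_dense_of_return S (fun U hU hUn => by
    obtain ⟨N, hN1, z, hz, hz'⟩ := return_mul f.continuous hret n hn U hU hUn
    exact ⟨N, hN1, z, hz, by rw [hgn]; exact hz'⟩) x ε hε
  refine ⟨y, ⟨n * N, Nat.mul_pos hn hN1, ?_⟩, by rwa [dist_comm]⟩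
  rw [Function.IsPeriodicPt, Function.IsFixedPt, ← hgn]
  exact hy

end Pool.Agent.Q192.PD
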